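import Pool.Agent.J4H5.RZ.Stm
import Pool.Agent.J4H3.NG.Loc

/-!
# Project RZ, piece STI: Stirling's formula for the quotient with a relative error
-/

set_option autoImplicit false

namespace Pool.Agent.J4H46.RZ

open Complex MeasureTheory Filter Topology Set
open Pool.Agent.J4H4.NG
open Pool.Agent.J4H5.RZ
open Pool.Agent.J4H3.NG
open Pool.Agent.H401R2 (sA stirling)

theorem t_STI : S_STI := by
  obtain ⟨K, hK⟩ : ∃ K : ℝ, K = ((1 * (1 + 4 * 1) + 1) * (1 + 4 * (8 * (1 + 4 * (3 * Real.exp 12)) + 3 * Real.exp 12)) +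
      (8 * (1 + 4 * (3 * Real.exp 12)) + 3 * Real.exp 12)) := ⟨_, rfl⟩
  have hexp : 0 < Real.exp 12 := Real.exp_pos _
  have hK0 : 0 < K := by rw [hK]; positivity
  refine ⟨2 * K, 4, by linarith, by norm_num, fun v hv => ⟨gam_ne v, fun u hu0 hsm => ?_⟩⟩
  have hv0 : 0 < v := by linarith
  have hau := abs_nonneg u
  have hu : |u| ≤ v / 2 := by
    have h1 : |u| ^ 2 ≤ (v / 2) ^ 2 := by
      rw [sq_abs]
      nlinarith
    exact le_of_sq_le_sq h1 (by linarith)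
  obtain ⟨X, hX⟩ : ∃ X : ℝ, X = (1 + |u|) ^ 2 / v := ⟨_, rfl⟩
  have hX0 : 0 ≤ X := by rw [hX]; positivity
  have hX4 : X ≤ 4 := by
    rw [hX, div_le_iff₀ hv0]
    have : |u| ^ 2 = u ^ 2 := sq_abs u
    nlinarith [sq_nonneg (1 - |u|)]
  have hlin : ∀ w : ℂ, v ≤ ‖w‖ → ‖(1 + I * (u : ℂ) / w) - 1‖ ≤ 1 * X := by
    intro w hw
    have e : (1 + I * (u : ℂ) / w) - 1 = I * u / w := by ring
    rw [e, norm_div, norm_mul, norm_I, one_mul, norm_real, Real.norm_eq_abs, one_mul, hX]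
    apply div_le_div₀ (by positivity) (by nlinarith) hv0 hw
  have n2 : v ≤ ‖(2 : ℂ) + I * v‖ := by
    refine le_trans (le_of_eq ?_) (abs_im_le_norm _)
    simp [abs_of_pos hv0]
  have n1 : v ≤ ‖(1 : ℂ) + I * v‖ := by
    refine le_trans (le_of_eq ?_) (abs_im_le_norm _)
    simp [abs_of_pos hv0]
  have q1 := mul_close hX0 hX4 zero_le_one zero_le_one (hlin _ n2) (hlin _ n1)
  have hS : ‖sA (1 + I * (((v + u) / 2 : ℝ) : ℂ)) / sA (1 + I * ((v / 2 : ℝ) : ℂ)) - 1‖ ≤ 8 * X := by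
    have hu1 := neg_abs_le u
    refine (sA_ratio hv (by simp) (by simp) ?_ ?_).trans ?_
    · simp
      linarith
    · simp
      linarith
    · rw [hX]
      have : 8 * ((1 + |u|) ^ 2 / v) = 8 * (1 + |u|) ^ 2 / v := by ring
      rw [this]
      apply div_le_div_of_nonneg_right _ hv0.le
      nlinarith
  have hE := exp_close hX4 (e := ((((1 + I * (((v + u) / 2 : ℝ) : ℂ)) - 1 / 2) * log (1 + I * (((v + u) / 2 : ℝ) : ℂ)) -
    (1 + I * (((v + u) / 2 : ℝ) : ℂ))) -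
    (((1 + I * ((v / 2 : ℝ) : ℂ)) - 1 / 2) * log (1 + I * ((v / 2 : ℝ) : ℂ)) - (1 + I * ((v / 2 : ℝ) : ℂ)))) -
    I * (u / 2) * log (I * ((v / 2 : ℝ) : ℂ))) (by
      refine (h_close hv hu).trans (le_of_eq ?_)
      rw [hX]
      ring)
  have q2 := mul_close hX0 hX4 (by norm_num) (by positivity) hS hE
  have q3 := mul_close hX0 hX4 (by norm_num) (by positivity) q1 q2
  rw [← hK] at q3
  rw [gam_ratio hv hu]
  have e : ∀ a b : ℂ, cexp a * b * cexp (-a) - 1 = b - 1 := by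
    intro a b
    have : cexp a * cexp (-a) = 1 := by rw [← exp_add]; simp
    linear_combination b * this
  rw [e]
  refine q3.trans ?_
  rw [hX, mul_div_assoc, mul_assoc, mul_comm 2 (K * _), mul_assoc]
  apply mul_le_mul_of_nonneg_left _ hK0.le
  rw [div_mul_eq_mul_div]
  apply div_le_div_of_nonneg_right _ hv0.le
  rw [← sq_abs u]
  nlinarith [sq_nonneg (1 - |u|)]

end Pool.Agent.J4H46.RZ
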